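import Pool.Agent.LibCIM.E2

/-! The Hilbert property of smooth complete intersections. Proof (helper98, helper36): for a point `P` of the complete intersection
`X₀ = {Q_1 = .. = Q_a = F = 0}` let `Z_P` be the variety of the directions `v` such that the line through `P` in the direction `v` is
contained in all the hypersurfaces `Q_j = 0` and has contact of order `e - 1` with `F = 0`, `e = deg F`. It meets `X₀` in one more point, and
these residual points form a family of subvarieties parametrised by `X₀`, which is algebraically closed (it degenerates to the generic point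
of `X₀` along the directions with contact of order `e`) and meets every prime divisor with multiplicity one. So a cover of `X₀` for which the
generic member of the family has lifts is unramified; for the others the Hilbert property of the fibres `Z_P` over `k` gives the points. -/

set_option autoImplicit false
open AlgebraicGeometry CategoryTheory

namespace Pool.Agent.Results.MP_87f965_ag.CompleteIntersections

open Pool.Agent.LibHP.CIM in
/-- Let `k` be a number field, `X₀ ⊆ P^n` a smooth complete intersection `{Q_1 = .. = Q_a = F = 0}` of hypersurfaces of degrees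
`d_1, .., d_a, e ≥ 2` over `k` (if `e = 2` let `{Q_1 = .. = Q_a = 0}` be smooth too), and `X` a smooth separated quasi-compact
integral scheme over `k`, birational to `X₀`, whose base change to the algebraic closure has no nontrivial connected finite etale
cover. Suppose that one of the following holds.
(A) `n ≥ d_1 + .. + d_a + e + 1`, and the points `P` of `X₀` over `k` whose variety `Z_P` of contact directions (the lines through `P`
contained in all the `Q_j = 0` and having contact of order `e - 1` with `F = 0` at `P`) has the Hilbert property are dense.
(B) All `d_j = 2`, `e ≤ 4`, `n ≥ 2 a + e + 1`, or `n = 2 a + e`, `e ≥ 3` and `m = 1`, where `m = a + 1` if `e = 4` and `m = a`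
otherwise, and the points `P` of `X₀` over `k` for which `m` independent directions over `k` span a space of contact directions are dense.
(C) The same with the following instead of the last condition: `n ≥ u + m ^ 2 + a` for some `u` such that every `m` quadratic forms in
`u` variables over `k` have a nontrivial common zero, and the rational points of `X` are dense.
Then `X` has the Hilbert property. -/
theorem result :
    ∀ (k : Type) [Field k] [NumberField k] (X : Scheme) [AlgebraicGeometry.IsIntegral X]
      (f : X ⟶ Spec (CommRingCat.of k)),
      AlgebraicGeometry.Smooth f →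
      AlgebraicGeometry.IsSeparated f → QuasiCompact f →
      (∀ (Y : Scheme)
          (g : Y ⟶ Limits.pullback f
            (Spec.map (CommRingCat.ofHom (algebraMap k (AlgebraicClosure k))))),
          AlgebraicGeometry.IsFinite g → AlgebraicGeometry.Etale g → ConnectedSpace Y →
            IsIso g) →
      ∀ (n a e : ℕ) (S : Sys k n a e), S.Good → IsModel f S.II →
      ((∑ j, S.dg j + e + 1 ≤ n ∧ S.DenseHP) ∨
        ((∀ j, S.dg j = 2) ∧ e ≤ 4 ∧
          (2 * a + e + 1 ≤ n ∨ 3 ≤ e ∧ mQ a e = 1 ∧ 2 * a + e ≤ n) ∧
          (S.DenseContact (mQ a e) ∨
            ∃ u : ℕ, u + (mQ a e) ^ 2 + a ≤ n ∧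
              (∀ q : Fin (mQ a e) → MvPolynomial (Fin u) k, (∀ i, (q i).IsHomogeneous 2) →
                ∃ x : Fin u → k, x ≠ 0 ∧ ∀ i, MvPolynomial.eval x (q i) = 0) ∧
              Dense {x : X | ∃ s : Spec (CommRingCat.of k) ⟶ X, s ≫ f = 𝟙 _ ∧
                x ∈ Set.range s.base}))) →
      ∀ (m : ℕ) (Y : Fin m → Scheme) (π : ∀ i, Y i ⟶ X),
        (∀ i, AlgebraicGeometry.IsIntegral (Y i)) →
        (∀ i, AlgebraicGeometry.IsFinite (π i)) →
        (∀ i, AlgebraicGeometry.Surjective (π i)) →
        (∀ i, ¬ IsIso (π i)) →
        Dense {x : X | ∃ s : Spec (CommRingCat.of k) ⟶ X, s ≫ f = 𝟙 _ ∧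
          x ∈ Set.range s.base ∧
          ∀ i (t : Spec (CommRingCat.of k) ⟶ Y i), t ≫ π i ≠ s} := by
  intro k _ _ X _ f h1 h2 h3 h4 n a e S hS hX hd
  rcases hd with ⟨hn, hd⟩ | ⟨hdg, he4, hn, hd⟩
  · exact main_sys k f h4 S hS hn hd hX
  · refine main_contact k f h4 S hS hdg he4 hn ?_ hX
    rcases hd with hd | ⟨u, hnu, hu, hdense⟩
    · exact hd
    · exact denseContact_of_dense f S hS hdg he4 hu hnu hX hdense

end Pool.Agent.Results.MP_87f965_ag.CompleteIntersections
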