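import Pool.Agent.LibHP3.Main
import Pool.Agent.LibHP5.Main

set_option autoImplicit false
open AlgebraicGeometry CategoryTheory

namespace Pool.Agent.Results.MP_87f965_ag.ConicAndGenusOne

open Pool.Agent.LibHP in
/-- `X` is birational to a smooth hypersurface of multidegree `(d i)`, with all `d i` in `{2, 3}` and
some `d i` equal to `2`, in the product, over the index `i`, of projective spaces of dimension at
least two; the product has at least two factors. The variables are indexed by `τ`, and `g` divides
them into the groups of homogeneous coordinates of the factors. -/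
def IsHypersurface {k : Type} [Field k] {X : Scheme} [AlgebraicGeometry.IsIntegral X]
    (f : X ⟶ Spec (CommRingCat.of k)) : Prop :=
  ∃ (τ ι : Type) (_ : Fintype τ) (_ : DecidableEq τ) (_ : Fintype ι) (_ : DecidableEq ι)
    (g : τ → ι) (d : ι → ℕ) (I J : ι) (F : MvPolynomial τ k),
    (∀ i, 3 ≤ Fintype.card {v // g v = i}) ∧ (∀ i, d i = 2 ∨ d i = 3) ∧ I ≠ J ∧ d I = 2 ∧
      IsMultiHom g d F ∧ IsSmoothMulti g F ∧ IsMultiModelOf f g F

open Pool.Agent.LibHP in
/-- `X` is birational to a double cover `w ^ 2 = F(x)` of an affine space, where `F` is of degree at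
most two and nondegenerate in a nonempty set `I` of variables, has no nonconstant factor free of the
variables of `I`, and has degree at most four in each of the other variables. -/
def IsDoubleCover {k : Type} [Field k] {X : Scheme} [AlgebraicGeometry.IsIntegral X]
    (f : X ⟶ Spec (CommRingCat.of k)) : Prop :=
  ∃ (σ : Type) (_ : Fintype σ) (_ : DecidableEq σ) (F : MvPolynomial σ k) (I : Finset σ),
    IsQuadOn F I ∧ (∀ v, v ∉ I → F.degreeOf v ≤ 4) ∧ IsDoubleCoverModel f F

open Pool.Agent.LibHP in
/-- A smooth variety `X` over a number field `k` with dense rational points has the Hilbert property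
if it is birational to a hypersurface as in `IsHypersurface` or to a double cover as in
`IsDoubleCover`: for finitely many finite surjective morphisms from integral schemes to `X` which
are not isomorphisms, the `k`-points of `X` which do not lift to any of these schemes are dense in
`X`. -/
theorem result :
    ∀ (k : Type) [Field k] [NumberField k] (X : Scheme) [AlgebraicGeometry.IsIntegral X]
      (f : X ⟶ Spec (CommRingCat.of k)),
      AlgebraicGeometry.Smooth f → AlgebraicGeometry.IsSeparated f → QuasiCompact f →
      Dense {x : X | ∃ s : Spec (CommRingCat.of k) ⟶ X, s ≫ f = 𝟙 _ ∧ x ∈ Set.range s.base} →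
      IsHypersurface f ∨ IsDoubleCover f →
      ∀ (r : ℕ) (Y : Fin r → Scheme) (π : ∀ i, Y i ⟶ X),
        (∀ i, AlgebraicGeometry.IsIntegral (Y i)) →
        (∀ i, AlgebraicGeometry.IsFinite (π i)) →
        (∀ i, AlgebraicGeometry.Surjective (π i)) →
        (∀ i, ¬ IsIso (π i)) →
        Dense {x : X | ∃ s : Spec (CommRingCat.of k) ⟶ X, s ≫ f = 𝟙 _ ∧
          x ∈ Set.range s.base ∧
          ∀ i (t : Spec (CommRingCat.of k) ⟶ Y i), t ≫ π i ≠ s} := by
  intro k _ _ X _ f hs hsep hqc hdense hX
  rcases hX with ⟨τ, ι, _, _, _, _, g, d, I, J, F, hn, hd, hIJ, hI, hF, hsm, hX⟩ |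
    ⟨σ, _, _, F, I, hI, hdeg, hX⟩
  · exact main_multi k τ ι g hn d hd I J hIJ hI F hF hsm X f hs hsep hqc hX hdense
  · exact main_mixed k σ F I hI hdeg X f hs hsep hqc hX hdense

end Pool.Agent.Results.MP_87f965_ag.ConicAndGenusOne
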