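import Pool.Agent.LibK3G.Pub

set_option autoImplicit false
open AlgebraicGeometry CategoryTheory

namespace Pool.Agent.Results.MP_87f965_ag.EntropySurfaces

/-- The map from the base field `K` to the local ring of `Y` at `y`. -/
noncomputable def toStalk {K : Type} [Field K] {Y : Scheme} (h : Y ⟶ Spec (CommRingCat.of K))
    (y : Y) : K →+* Y.presheaf.stalk y :=
  ((Scheme.ΓSpecIso (CommRingCat.of K)).inv ≫ h.appTop ≫ Y.presheaf.germ ⊤ y trivial).hom

/-- The Hilbert property of `Y` over `K`: for finitely many finite surjective morphisms from integral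
schemes to `Y` which are not isomorphisms, the `K`-points of `Y` which do not lift to any of these
schemes are dense in `Y`. -/
def HilbertProp {K : Type} [Field K] {Y : Scheme} (h : Y ⟶ Spec (CommRingCat.of K)) : Prop :=
  ∀ (n : ℕ) (V : Fin n → Scheme) (π : ∀ i, V i ⟶ Y),
    (∀ i, AlgebraicGeometry.IsIntegral (V i)) →
    (∀ i, AlgebraicGeometry.IsFinite (π i)) →
    (∀ i, AlgebraicGeometry.Surjective (π i)) →
    (∀ i, ¬ IsIso (π i)) →
    Dense {y : Y | ∃ s : Spec (CommRingCat.of K) ⟶ Y, s ≫ h = 𝟙 _ ∧
      y ∈ Set.range s.base ∧
      ∀ i (t : Spec (CommRingCat.of K) ⟶ V i), t ≫ π i ≠ s}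

/-- Every connected finite etale cover of the base change of `Y` to an algebraic closure of `K` is
trivial. -/
def GeomSimplyConnected {K : Type} [Field K] {Y : Scheme} (h : Y ⟶ Spec (CommRingCat.of K)) :
    Prop :=
  ∀ (V : Scheme)
    (π : V ⟶ Limits.pullback h
      (Spec.map (CommRingCat.ofHom (algebraMap K (AlgebraicClosure K))))),
    AlgebraicGeometry.IsFinite π → AlgebraicGeometry.Etale π → ConnectedSpace V → IsIso π

/-- Every integral finite etale cover of the open set `U` which has a section over the point `C`
(the generic point of a curve) is an isomorphism. -/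
def CurveGenerates {Y : Scheme} (U : Y.Opens) (C : Y) : Prop :=
  ∀ (V : Scheme) (π : V ⟶ (U : Scheme)), AlgebraicGeometry.IsIntegral V →
    AlgebraicGeometry.IsFinite π → AlgebraicGeometry.Etale π →
    (∃ s : Spec (Y.residueField C) ⟶ V, s ≫ π ≫ U.ι = Y.fromSpecResidueField C) → IsIso π

/-- The rational functions `c i` are the homogeneous coordinates of an embedding of `Y` in a
projective space over `K` as a closed subvariety: they are not zero, and `Y` is covered by affine open
sets `W i` with the rings of functions `K[c j / c i : j]`. -/
def IsProjEmb {K : Type} [Field K] {Y : Scheme} [AlgebraicGeometry.IsIntegral Y]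
    (h : Y ⟶ Spec (CommRingCat.of K)) {ι : Type} (c : ι → Y.functionField) : Prop :=
  letI : Algebra K Y.functionField := (toStalk h (genericPoint Y)).toAlgebra
  (∀ i, c i ≠ 0) ∧ ∃ W : ι → Y.Opens, (∀ i, IsAffineOpen (W i)) ∧ (∀ y : Y, ∃ i, y ∈ W i) ∧
    ∀ i, ∃ hW : genericPoint Y ∈ W i, ∀ z : Y.functionField,
      (∃ s, Y.presheaf.germ (W i) (genericPoint Y) hW s = z) ↔
        z ∈ Algebra.adjoin K (Set.range fun j => c j / c i)

/-- `C` is the generic point of a rational curve over `K` in `Y`, and `d` is the degree of this curve
with respect to the homogeneous coordinates `c`: the local ring of `Y` at `C` has dimension one, its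
residue field is the field `K(t)`, and the restrictions of the homogeneous coordinates to the curve
are, up to a common factor, polynomials in `t` without common factor, with maximal degree `d`. -/
def CurveDeg {K : Type} [Field K] {Y : Scheme} [AlgebraicGeometry.IsIntegral Y]
    (h : Y ⟶ Spec (CommRingCat.of K)) {ι : Type} (c : ι → Y.functionField) (C : Y) (d : ℕ) :
    Prop :=
  ringKrullDim (Y.presheaf.stalk C) = 1 ∧
    ∃ φ : Y.residueField C ≃+* RatFunc K,
      (∀ a : K, φ (Y.residue C (toStalk h C a)) = RatFunc.C a) ∧
      ∃ (z : Y.functionField) (b : ι → Y.presheaf.stalk C) (p : ι → Polynomial K),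
        (∀ i, algebraMap (Y.presheaf.stalk C) Y.functionField (b i) = c i * z) ∧
        (∀ i, φ (Y.residue C (b i)) = algebraMap (Polynomial K) (RatFunc K) (p i)) ∧
        (∀ r : Polynomial K, (∀ i, r ∣ p i) → IsUnit r) ∧
        (∀ i, (p i).natDegree ≤ d) ∧ ∃ i, (p i).natDegree = d

/-- `Y` is a smooth projective surface over the field `K`, with an automorphism `g` and a rational
curve `C` over `K` such that the degrees of the curves `g^m C` grow exponentially, and with a non
empty open set `U` such that every codimension one point of `U` has infinitely many images under the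
automorphisms of `Y` over `K`, and such that either `U` has no nontrivial connected finite etale cover
over the algebraic closure of `K`, or `C` is in `U` and every integral finite etale cover of `U` with a
section over the generic point of `C` is an isomorphism. -/
def EntropySurface {K : Type} [Field K] {Y : Scheme} [AlgebraicGeometry.IsIntegral Y]
    (h : Y ⟶ Spec (CommRingCat.of K)) : Prop :=
  letI : Algebra K Y.functionField := (toStalk h (genericPoint Y)).toAlgebra
  AlgebraicGeometry.Smooth h ∧ AlgebraicGeometry.IsSeparated h ∧ QuasiCompact h ∧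
    Algebra.trdeg K Y.functionField = 2 ∧
    ∃ (ι : Type) (_ : Finite ι) (c : ι → Y.functionField) (g : Y ≅ Y) (C : Y) (U : Y.Opens)
      (μ a : ℝ), IsProjEmb h c ∧ g.hom ≫ h = h ∧ 1 < μ ∧ 0 < a ∧
      (∀ m : ℕ, ∃ d : ℕ, CurveDeg h c ((fun y : Y => g.hom y)^[m] C) d ∧ a * μ ^ m ≤ d) ∧
      Nonempty U ∧ (GeomSimplyConnected (U.ι ≫ h) ∨ (C ∈ U ∧ CurveGenerates U C)) ∧
      ∀ b ∈ U, ringKrullDim (Y.presheaf.stalk b) = 1 →
        {y : Y | ∃ s : Y ≅ Y, s.hom ≫ h = h ∧ s.hom b = y}.Infinite

/-- **The Hilbert property for surfaces of positive entropy and for families of such surfaces.**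

(A) Let `K` be a field of characteristic zero which is finitely generated over the field of the
rational numbers (in particular a number field), and `Y` a smooth projective surface over `K` as in
`EntropySurface`. Then `Y` has the Hilbert property over `K`.

(B) Let `k` be a field of characteristic zero which is finitely generated over the field of the
rational numbers, `S` a normal integral scheme locally of finite type over `k` with the Hilbert
property, `X` a smooth quasi-compact integral scheme over `k` and `p : X ⟶ S` a morphism over `k` whose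
generic fibre `Y` is a surface as in `EntropySurface` over the function field of `S`. Then `X` has the
Hilbert property over `k`. -/
theorem result :
    (∀ (K : Type) [Field K] [CharZero K] [Algebra.EssFiniteType ℚ K] (Y : Scheme)
      [AlgebraicGeometry.IsIntegral Y] (h : Y ⟶ Spec (CommRingCat.of K)),
      EntropySurface h → HilbertProp h) ∧
    (∀ (k : Type) [Field k] [CharZero k] [Algebra.EssFiniteType ℚ k] (S X Y : Scheme)
      [AlgebraicGeometry.IsIntegral S] [AlgebraicGeometry.IsIntegral X]
      [AlgebraicGeometry.IsIntegral Y] (s : S ⟶ Spec (CommRingCat.of k))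
      (f : X ⟶ Spec (CommRingCat.of k)) (p : X ⟶ S) (q : Y ⟶ X)
      (h : Y ⟶ Spec (CommRingCat.of S.functionField)),
      AlgebraicGeometry.LocallyOfFiniteType s →
      (∀ z : S, IsIntegrallyClosed (S.presheaf.stalk z)) →
      HilbertProp s →
      AlgebraicGeometry.Smooth f → QuasiCompact f → p ≫ s = f →
      IsPullback q h p (S.fromSpecStalk (genericPoint S)) →
      EntropySurface h → HilbertProp f) := by
  refine ⟨?_, ?_⟩
  · intro K _ _ _ Y _ h hD
    exact LibK3G.main_surface h (LibK3G.EntropySurface.dynSurface hD)
  · intro k _ _ _ S X Y _ _ _ s f p q h h1 h2 h3 h4 h5 h6 h7 h8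
    have : CharZero S.functionField :=
      charZero_of_injective_ringHom (toStalk s (genericPoint S)).injective
    exact LibK3G.main_dyn s h2 h3 f p h6 q h h7 (LibK3G.EntropySurface.dynSurface h8)

end Pool.Agent.Results.MP_87f965_ag.EntropySurfaces
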