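import Pool.Agent.LibW64E.E5
import Pool.Agent.LibW64.Q5

set_option autoImplicit false
open AlgebraicGeometry CategoryTheory

namespace Pool.Agent.Results.MP_87f965_ag.FibrationWebs

open Pool.Agent.LibHP in
/-- **Webs of fibrations and the Hilbert property.** Let `k` be a number field and `f : X ⟶ Spec k` a
smooth separated quasi-compact integral scheme over `k`. Suppose that the base change of `X` to the
algebraic closure has no nontrivial connected finite etale cover and that the rational points of `X`
are dense, or, more generally, that `X` has the Hilbert property with respect to finite etale covers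
(`EtaleHP f`). Let `K` be the function field of `X`. Suppose that every codimension one point `x` of
`X` is horizontal for some rational map from `X` to an arbitrary variety over `k`, of one of the
following kinds (the kind and the rational map may depend on `x`):

* a morphism `g : V ⟶ T` on an open neighbourhood `V` of `x`, such that for all `k`-points `s` of a
  nonempty open subset of `V` the fibre `F` of `g` through `s` is integral, normal and has the weak
  Hilbert property relative to `s`: the `k`-points of `F` which do not lift to finitely many normal
  covers of `F`, each of which is ramified or has no `k`-point above `s`, are dense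
  (`FibreWHP f x`); for example, `F` has the Hilbert property;
* the rational map given by a subfield `L` of `K` over `k`, contained in the local ring at `x`,
  whose generic fibre is a smooth quadric of positive dimension (`IsQuadricField L`) or is dominated,
  over its own function field, by an affine space with geometrically irreducible generic fibre
  (`FibreDominated L`);

or that, for every prime number `l`, some rational curve over `K` through the generic point of `X`
meets `x` with multiplicity not divisible by `l`. Then `X` has the Hilbert property: the rational
points outside the images of the rational points of finitely many nontrivial finite covers are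
dense. -/
theorem result :
    ∀ (k : Type) [Field k] [NumberField k] (X : Scheme) [AlgebraicGeometry.IsIntegral X]
      (f : X ⟶ Spec (CommRingCat.of k)),
      AlgebraicGeometry.Smooth f →
      AlgebraicGeometry.IsSeparated f → QuasiCompact f →
      ((∀ (Y : Scheme)
          (g : Y ⟶ Limits.pullback f
            (Spec.map (CommRingCat.ofHom (algebraMap k (AlgebraicClosure k))))),
          AlgebraicGeometry.IsFinite g → AlgebraicGeometry.Etale g → ConnectedSpace Y →
            IsIso g) ∧
        Dense {x : X | ∃ s : Spec (CommRingCat.of k) ⟶ X, s ≫ f = 𝟙 _ ∧
          x ∈ Set.range s.base} ∨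
        EtaleHP f) →
      (∀ x : X, ringKrullDim (X.presheaf.stalk x) = 1 →
        FibreWHP f x ∨
        (∃ L : Subfield X.functionField, (∀ c : k, toStalk f (genericPoint X) c ∈ L) ∧
          (∀ c ∈ L, ∃ a : X.presheaf.stalk x,
            algebraMap (X.presheaf.stalk x) X.functionField a = c) ∧
          (IsQuadricField L ∨ FibreDominated L)) ∨
        ∀ l : ℕ, l.Prime → ∃ m : ℕ, ¬ l ∣ m ∧ CurveMeets f x m) →
      ∀ (n : ℕ) (Y : Fin n → Scheme) (π : ∀ i, Y i ⟶ X),
        (∀ i, AlgebraicGeometry.IsIntegral (Y i)) →
        (∀ i, AlgebraicGeometry.IsFinite (π i)) →
        (∀ i, AlgebraicGeometry.Surjective (π i)) →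
        (∀ i, ¬ IsIso (π i)) →
        Dense {x : X | ∃ s : Spec (CommRingCat.of k) ⟶ X, s ≫ f = 𝟙 _ ∧
          x ∈ Set.range s.base ∧
          ∀ i (t : Spec (CommRingCat.of k) ⟶ Y i), t ≫ π i ≠ s} := by
  intro k _ _ X _ f h1 h2 h3 h45 H
  have hchar : CharZero X.functionField :=
    charZero_of_injective_ringHom (toStalk f (genericPoint X)).injective
  refine main_web_gen k f h45 fun x hx => ?_
  rcases H x hx with hF | ⟨L, hk, hL, hQ⟩ | hc
  · exact Or.inl hF
  · exact Or.inr (Or.inl ⟨L, hk, hL, hQ.elim (fun h => W_Q5 L h) id⟩)
  · exact Or.inr (Or.inr hc)

end Pool.Agent.Results.MP_87f965_ag.FibrationWebs
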